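import Pool.Agent.W555.GL.Stm

/-! Project GL (helper555), part GL-INJ. -/

set_option autoImplicit false

namespace Pool.Agent.W315.GL

open Cardinal Pool.Agent.W555.GL

variable {L : Type} [CompleteLattice L] {rk : L → ℕ} {r : ℕ}

lemma rk_le (h : RkData L rk r) {x y : L} (hxy : x ≤ y) : rk x ≤ rk y := by
  rcases hxy.eq_or_lt with rfl | h1
  · exact le_rfl
  · exact (h.mono _ _ h1).le

lemma eq_of_rk (h : RkData L rk r) {x y : L} (hxy : x ≤ y) (hr : rk y ≤ rk x) : x = y := by
  rcases hxy.eq_or_lt with h1 | h1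
  · exact h1
  · exact absurd (h.mono _ _ h1) (not_lt.2 hr)

lemma rk_atom (h : RkData L rk r) {a : L} (ha : IsAtom a) : rk a = 1 := by
  have h1 := h.atom ⊥ a ha (fun h2 => ha.1 (le_bot_iff.1 h2))
  rw [bot_sup_eq, h.bot] at h1
  exact h1

lemma covBy_of_rk (h : RkData L rk r) {x y : L} (hxy : x ≤ y) (hr : rk y = rk x + 1) :
    x ⋖ y := by
  refine ⟨lt_of_le_of_ne hxy ?_, ?_⟩
  · rintro rfl; omega
  · intro z h1 h2
    have h3 := h.mono _ _ h1
    have h4 := h.mono _ _ h2
    omega

lemma rk_of_covBy (h : RkData L rk r) {x y : L} (hxy : x ⋖ y) : rk y = rk x + 1 := by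
  obtain ⟨a, ha, hay, hax⟩ := h.gen x y hxy.1
  have h1 : x < x ⊔ a := left_lt_sup.2 hax
  have h2 : x ⊔ a ≤ y := sup_le hxy.le hay
  have h3 : x ⊔ a = y := by
    by_contra h4
    exact hxy.2 h1 (lt_of_le_of_ne h2 h4)
  rw [← h3, h.atom x a ha hax]

lemma exch (h : RkData L rk r) {x a b : L} (ha : IsAtom a) (hb : IsAtom b) (hax : ¬ a ≤ x)
    (hab : a ≤ x ⊔ b) : b ≤ x ⊔ a := by
  have hbx : ¬ b ≤ x := fun h1 => hax (by rwa [sup_eq_left.2 h1] at hab)
  have h1 : x ⊔ a = x ⊔ b := eq_of_rk h (sup_le le_sup_left hab)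
    (by rw [h.atom x a ha hax, h.atom x b hb hbx])
  rw [h1]
  exact le_sup_right

lemma sep (h : RkData L rk r) {Z z a : L} (hzZ : z ≤ Z) (ha : IsAtom a) (haZ : a ≤ Z)
    (haz : ¬ a ≤ z) : ∃ c, c ⋖ Z ∧ z ≤ c ∧ ¬ a ≤ c := by
  classical
  have hex : ∃ n, ∃ c, z ≤ c ∧ c ≤ Z ∧ ¬ a ≤ c ∧ rk Z - rk c = n :=
    ⟨_, z, le_rfl, hzZ, haz, rfl⟩
  obtain ⟨c, h1, h2, h3, h4⟩ := Nat.find_spec hex
  have hmax : ∀ c', z ≤ c' → c' ≤ Z → ¬ a ≤ c' → rk c' ≤ rk c := by
    intro c' g1 g2 g3
    have g4 := Nat.find_min' hex ⟨c', g1, g2, g3, rfl⟩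
    have g5 := rk_le h h2
    have g6 := rk_le h g2
    omega
  have h5 : c ⊔ a = Z := by
    by_contra h6
    obtain ⟨b, hb, hbZ, hbc⟩ := h.gen _ _ (lt_of_le_of_ne (sup_le h2 haZ) h6)
    have hbc' : ¬ b ≤ c := fun h7 => hbc (h7.trans le_sup_left)
    have h8 : a ≤ c ⊔ b := by
      by_contra h9
      have h10 := hmax (c ⊔ b) (h1.trans le_sup_left) (sup_le h2 hbZ) h9
      rw [h.atom c b hb hbc'] at h10
      omega
    exact hbc (exch h ha hb h3 h8)
  exact ⟨c, covBy_of_rk h h2 (by rw [← h5, h.atom c a ha h3]), h1, h3⟩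

lemma fin_inf (h : RkData L rk r) {Z z : L} (hzZ : z ≤ Z) :
    ∃ T : Finset {c : L // c ⋖ Z}, Z ⊓ T.inf (fun c => (c : L)) = z := by
  classical
  have key : ∀ n, ∀ T : Finset {c : L // c ⋖ Z}, z ≤ Z ⊓ T.inf (fun c => (c : L)) →
      rk (Z ⊓ T.inf (fun c => (c : L))) ≤ rk z + n →
      ∃ T' : Finset {c : L // c ⋖ Z}, Z ⊓ T'.inf (fun c => (c : L)) = z := by
    intro n
    induction n with
    | zero =>
      intro T h1 h2
      exact ⟨T, (eq_of_rk h h1 (by omega)).symm⟩
    | succ n ih =>
      intro T h1 h2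
      rcases h1.eq_or_lt with h3 | h3
      · exact ⟨T, h3.symm⟩
      obtain ⟨a, ha, hax, haz⟩ := h.gen _ _ h3
      obtain ⟨c, hc, hzc, hac⟩ := sep h hzZ ha (hax.trans inf_le_left) haz
      apply ih (insert ⟨c, hc⟩ T)
      · rw [Finset.inf_insert]
        exact le_inf hzZ (le_inf hzc (h1.trans inf_le_right))
      · have h4 : Z ⊓ (insert ⟨c, hc⟩ T).inf (fun c => (c : L)) <
            Z ⊓ T.inf (fun c => (c : L)) := by
          rw [Finset.inf_insert]
          refine lt_of_le_of_ne (inf_le_inf_left _ inf_le_right) ?_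
          intro h5
          apply hac
          rw [← h5] at hax
          exact hax.trans (inf_le_right.trans inf_le_left)
        have h6 := h.mono _ _ h4
        omega
  refine key (rk Z) ∅ (by simpa using hzZ) ?_
  rw [Finset.inf_empty, inf_top_eq]
  omega

lemma exists_fpf (α : Type) [Nontrivial α] : ∃ f : α → α, Function.Injective f ∧ ∀ x, f x ≠ x := by
  classical
  rcases finite_or_infinite α with hf | hi
  · have _ := Fintype.ofFinite α
    obtain ⟨m, hm⟩ : ∃ m, Fintype.card α = m + 2 := by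
      have h1 := Fintype.one_lt_card (α := α)
      exact ⟨Fintype.card α - 2, by omega⟩
    let e : α ≃ Fin (m + 2) := Fintype.equivFinOfCardEq hm
    refine ⟨fun x => e.symm (e x + 1), ?_, ?_⟩
    · intro x y hxy
      have h1 := e.symm.injective hxy
      exact e.injective (add_right_cancel h1)
    · intro x hx
      have h1 : e x + 1 = e x := by
        rw [← e.symm.injective.eq_iff, e.symm_apply_apply]
        exact hx
      have h2 : (1 : Fin (m + 2)) = 0 := by
        simpa using h1
      exact absurd h2 (by simp)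
  · have h1 : #(α × Bool) = #α := by
      rw [Cardinal.mk_prod, Cardinal.lift_id, Cardinal.lift_id]
      refine Cardinal.mul_eq_left (Cardinal.aleph0_le_mk α) ?_ ?_
      · exact (Cardinal.lt_aleph0_of_finite Bool).le.trans (Cardinal.aleph0_le_mk α)
      · exact Cardinal.mk_ne_zero Bool
    obtain ⟨e⟩ := Cardinal.eq.1 h1
    refine ⟨fun x => e ((e.symm x).1, !(e.symm x).2), ?_, ?_⟩
    · intro x y hxy
      have h2 := e.injective hxy
      rw [Prod.mk.injEq] at h2
      have h3 : (e.symm x).2 = (e.symm y).2 := by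
        have := h2.2
        simpa using this
      exact e.symm.injective (Prod.ext h2.1 h3)
    · intro x hx
      have h2 : ((e.symm x).1, !(e.symm x).2) = e.symm x := by
        rw [← e.injective.eq_iff, e.apply_symm_apply]
        exact hx
      have h3 := congrArg Prod.snd h2
      simp at h3

theorem inj (hd : StDbe) : StInj := by
  intro L _ rk r h Z
  classical
  have red : (∃ f : pts Z → L, (∀ z, f z ⋖ Z ∧ f z ≠ z) ∧ Function.Injective f) →
      ∃ h : L → L, (∀ z ∈ pts Z, h z ⋖ Z ∧ h z ≠ z) ∧ Set.InjOn h (pts Z) := by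
    rintro ⟨f, hf1, hf2⟩
    refine ⟨fun z => if hz : z ∈ pts Z then f ⟨z, hz⟩ else z, ?_, ?_⟩
    · intro z hz
      simp only [dif_pos hz]
      exact hf1 ⟨z, hz⟩
    · intro z hz z' hz' heq
      simp only [dif_pos hz, dif_pos hz'] at heq
      exact congrArg Subtype.val (hf2 heq)
  apply red
  have hrz : ∀ z ∈ pts Z, rk z = 1 := fun z hz => rk_atom h hz.1
  rcases Nat.lt_or_ge (rk Z) 3 with hlt | hge
  · obtain h0 | h0 | h0 : rk Z = 0 ∨ rk Z = 1 ∨ rk Z = 2 := by omega
    · have hno : ∀ z : pts Z, False := by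
        intro z
        have h1 := hrz z z.2
        have h2 := rk_le h z.2.2
        omega
      exact ⟨fun z => z, fun z => (hno z).elim, fun z => (hno z).elim⟩
    · refine ⟨fun _ => ⊥, fun z => ⟨covBy_of_rk h bot_le (by rw [h.bot, h0]), ?_⟩, ?_⟩
      · exact fun h1 => z.2.1.1 h1.symm
      · intro z z' _
        have h1 : (z : L) = Z := eq_of_rk h z.2.2 (by rw [h0, hrz z z.2])
        have h2 : (z' : L) = Z := eq_of_rk h z'.2.2 (by rw [h0, hrz z' z'.2])
        exact Subtype.ext (h1.trans h2.symm)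
    · have hbot : (⊥ : L) < Z := by
        refine lt_of_le_of_ne bot_le ?_
        intro h1
        rw [← h1, h.bot] at h0
        omega
      obtain ⟨a, ha, haZ, -⟩ := h.gen _ _ hbot
      have haZ' : a < Z := by
        refine lt_of_le_of_ne haZ ?_
        intro h1
        rw [← h1, rk_atom h ha] at h0
        omega
      obtain ⟨b, hb, hbZ, hba⟩ := h.gen _ _ haZ'
      have hnt : Nontrivial (pts Z) := by
        refine ⟨⟨a, ha, haZ⟩, ⟨b, hb, hbZ⟩, ?_⟩
        intro h1
        apply hba
        rw [Subtype.mk.injEq] at h1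
        exact h1.ge
      obtain ⟨f, hf1, hf2⟩ := exists_fpf (pts Z)
      refine ⟨fun z => (f z : L), fun z => ⟨?_, ?_⟩, ?_⟩
      · exact covBy_of_rk h (f z).2.2 (by rw [h0, hrz _ (f z).2])
      · intro h1
        exact hf2 z (Subtype.ext h1)
      · intro z z' h1
        exact hf1 (Subtype.ext h1)
  · -- an embedding into the coatoms is enough
    have hle : #(pts Z) ≤ #{c : L // c ⋖ Z} := by
      by_cases hfin : (pts Z).Finite
      · have h1 := hd L rk r h ⊥ Z bot_le (by rw [h.bot]; omega) hfin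
        have h2 : {p : L | ⊥ ⋖ p ∧ p ≤ Z} = pts Z := by
          ext p
          simp [pts, bot_covBy_iff]
        have h3 : {c : L | ⊥ ≤ c ∧ c ⋖ Z} = {c : L | c ⋖ Z} := by
          ext p
          simp
        rw [h2, h3] at h1
        rcases Set.finite_or_infinite {c : L | c ⋖ Z} with h4 | h4
        · have h5 : (((pts Z).ncard : ℕ) : Cardinal.{0}) ≤ (({c : L | c ⋖ Z}.ncard : ℕ) : Cardinal.{0}) := by
            exact_mod_cast h1
          rw [Set.cast_ncard hfin, Set.cast_ncard h4] at h5
          exact h5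
        · have h5 : ℵ₀ ≤ #{c : L // c ⋖ Z} := by
            have : Infinite {c : L // c ⋖ Z} := h4.to_subtype
            exact Cardinal.aleph0_le_mk _
          have h6 : #(pts Z) < ℵ₀ := by
            have : Finite (pts Z) := hfin.to_subtype
            exact Cardinal.lt_aleph0_of_finite _
          exact h6.le.trans h5
      · have hinf : Infinite (pts Z) := Set.infinite_coe_iff.2 hfin
        choose T hT using fun z : pts Z => fin_inf h z.2.2
        have hTi : Function.Injective T := by
          intro z z' hzz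
          apply Subtype.ext
          rw [← hT z, ← hT z', hzz]
        have h1 : #(pts Z) ≤ #(Finset {c : L // c ⋖ Z}) := Cardinal.mk_le_of_injective hTi
        have hI : Infinite {c : L // c ⋖ Z} := by
          by_contra h2
          rw [not_infinite_iff_finite] at h2
          have h3 : Finite (Finset {c : L // c ⋖ Z}) := by infer_instance
          have h4 : Finite (pts Z) := Finite.of_injective T hTi
          exact not_finite (pts Z)
        rwa [Cardinal.mk_finset_of_infinite] at h1
    obtain ⟨e⟩ := Cardinal.le_def _ _ |>.1 hle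
    refine ⟨fun z => (e z : L), fun z => ⟨(e z).2, ?_⟩, ?_⟩
    · intro h1
      have h2 := rk_of_covBy h (e z).2
      have h3 : rk (e z : L) = 1 := by
        have h4 := hrz z z.2
        rw [← h1] at h4
        exact h4
      omega
    · intro z z' h1
      exact e.injective (Subtype.ext h1)

end Pool.Agent.W315.GL
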